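import Pool.Agent.W774.TL.Stm

/-!
# Strict convexity (the variance is positive)
-/

set_option autoImplicit false

namespace Pool.Agent.W891.TL

open Pool.Agent.W774.TL

theorem abs_le_pow (j : ℤ) : |(j : ℝ)| ≤ (3 : ℝ) ^ j.natAbs := by
  have h1 : (j.natAbs : ℝ) = |(j : ℝ)| := by
    rw [Nat.cast_natAbs, Int.cast_abs]
  rw [← h1]
  exact_mod_cast (Nat.lt_pow_self (by norm_num : 1 < 3)).le

theorem cvx_thm (h1 : P_SUM) : P_CVX := by
  intro x p t
  have hpos : ∀ j, 0 < E j x p t := fun j => Real.exp_pos _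
  obtain ⟨u0, hu0, hb0⟩ := h1 0 |p|
  obtain ⟨u1, hu1, hb1⟩ := h1 1 |p|
  obtain ⟨u2, hu2, hb2⟩ := h1 2 |p|
  have hA : Summable (fun j => E j x p t) := by
    refine Summable.of_nonneg_of_le (fun j => (hpos j).le) (fun j => ?_) hu0
    have h2 := hb0 j x p t le_rfl
    rwa [pow_zero, one_mul] at h2
  have hB : Summable (fun j : ℤ => (j : ℝ) * E j x p t) := by
    refine Summable.of_norm_bounded hu1 fun j => ?_
    have h2 := hb1 j x p t le_rfl
    rw [pow_one] at h2
    refine le_trans ?_ h2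
    rw [Real.norm_eq_abs, abs_mul, abs_of_pos (hpos j)]
    exact mul_le_mul_of_nonneg_right (abs_le_pow j) (hpos j).le
  have hC : Summable (fun j : ℤ => (j : ℝ) ^ 2 * E j x p t) := by
    refine Summable.of_norm_bounded hu2 fun j => ?_
    refine le_trans ?_ (hb2 j x p t le_rfl)
    rw [Real.norm_eq_abs, abs_mul, abs_of_pos (hpos j), abs_pow]
    exact mul_le_mul_of_nonneg_right (pow_le_pow_left₀ (abs_nonneg _) (abs_le_pow j) 2)
      (hpos j).le
  set A := ∑' j : ℤ, E j x p t with hAd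
  set B := ∑' j : ℤ, (j : ℝ) * E j x p t with hBd
  set C := ∑' j : ℤ, (j : ℝ) ^ 2 * E j x p t with hCd
  have hs : HasSum (fun j : ℤ => (A * j - B) ^ 2 * E j x p t)
      (A ^ 2 * C - 2 * A * B * B + B ^ 2 * A) := by
    have h2 := ((hC.hasSum.mul_left (A ^ 2)).sub (hB.hasSum.mul_left (2 * A * B))).add
      (hA.hasSum.mul_left (B ^ 2))
    have h3 : (fun j : ℤ => (A * j - B) ^ 2 * E j x p t) = fun b : ℤ =>
        A ^ 2 * ((b : ℝ) ^ 2 * E b x p t) - 2 * A * B * ((b : ℝ) * E b x p t) +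
          B ^ 2 * E b x p t := by
      funext j
      ring
    rw [h3]
    exact h2
  have hApos : 0 < A := hA.tsum_pos (fun j => (hpos j).le) 0 (hpos 0)
  have hnn : ∀ j : ℤ, 0 ≤ (A * j - B) ^ 2 * E j x p t := fun j =>
    mul_nonneg (sq_nonneg _) (hpos j).le
  have hex : ∃ j : ℤ, 0 < (A * j - B) ^ 2 * E j x p t := by
    by_cases h0 : B = 0
    · refine ⟨1, mul_pos ?_ (hpos 1)⟩
      rw [h0]
      push_cast
      rw [mul_one, sub_zero]
      exact pow_pos hApos 2
    · refine ⟨0, mul_pos ?_ (hpos 0)⟩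
      push_cast
      rw [mul_zero, zero_sub, neg_sq]
      exact lt_of_le_of_ne (sq_nonneg B) (Ne.symm (pow_ne_zero 2 h0))
  obtain ⟨j, hj⟩ := hex
  have h3 : 0 < A ^ 2 * C - 2 * A * B * B + B ^ 2 * A := by
    rw [← hs.tsum_eq]
    exact hs.summable.tsum_pos hnn j hj
  have h4 : 0 < A * (C * A - B ^ 2) := by
    have h5 : A * (C * A - B ^ 2) = A ^ 2 * C - 2 * A * B * B + B ^ 2 * A := by ring
    rw [h5]
    exact h3
  have h5 := (mul_pos_iff_of_pos_left hApos).1 h4
  linarith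

end Pool.Agent.W891.TL
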